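import Pool.Agent.Work.MP_2df8e9_al.Main

/-!
Representations of the simple `n`-ary algebra, `n` odd, in which a basis vector acts as a
transcendental element.
-/

namespace Pool.Agent.Work.MP_2df8e9_al.Env

open Equiv Finset Pool.Agent.Work.MP_2df8e9_al

universe u v

section Std

variable {F : Type u} [Field F] {A : Type*} [Ring A] [Algebra F A]

lemma std_anti : ∀ (k : ℕ) (x : Fin (k + 1) → A), (∀ j : Fin k, x j.succ * x 0 = -(x 0 * x j.succ)) →
    stdAlt F A (k + 1) x = ((k : F) + 1) • (x 0 * stdAlt F A k fun j => x j.succ)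
  | 0, x, _ => by simp [stdAlt_apply]
  | k + 1, x, h => by
      rw [stdAlt_succ, Fin.sum_univ_succ]
      have h1 : ∀ i : Fin (k + 1),
          (-1 : F) ^ ((i.succ : Fin (k + 2)) : ℕ) •
            (x i.succ * stdAlt F A (k + 1) fun j => x (i.succ.succAbove j)) =
          ((k : F) + 1) • (x 0 * ((-1 : F) ^ (i : ℕ) •
            (x i.succ * stdAlt F A k fun j => x (i.succAbove j).succ))) := by
        intro i
        rw [std_anti k (fun j => x (i.succ.succAbove j)) (by intro j; simpa using h _)]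
        simp only [Fin.succ_succAbove_zero, Fin.succ_succAbove_succ, Fin.val_succ, pow_succ]
        rw [mul_smul_comm, ← mul_assoc, h i, mul_smul_comm, ← mul_assoc, smul_smul, smul_smul,
          neg_mul, smul_neg, ← neg_smul]
        congr 1
        ring
      rw [Finset.sum_congr rfl fun i _ => h1 i, ← Finset.smul_sum, ← Finset.mul_sum,
        ← stdAlt_succ k fun j => x j.succ]
      simp only [Fin.val_zero, pow_zero, one_smul, Fin.succAbove_zero]
      push_cast
      rw [add_smul ((k : F) + 1), one_smul, add_comm]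

lemma std_cent : ∀ (k : ℕ) (x : Fin (k + 1) → A), (∀ j : Fin k, x j.succ * x 0 = x 0 * x j.succ) →
    stdAlt F A (k + 1) x = if Even k then x 0 * stdAlt F A k fun j => x j.succ else 0
  | 0, x, _ => by simp [stdAlt_apply]
  | k + 1, x, h => by
      rw [stdAlt_succ, Fin.sum_univ_succ]
      have h1 : ∀ i : Fin (k + 1),
          (-1 : F) ^ ((i.succ : Fin (k + 2)) : ℕ) •
            (x i.succ * stdAlt F A (k + 1) fun j => x (i.succ.succAbove j)) =
          if Even k then -(x 0 * ((-1 : F) ^ (i : ℕ) •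
            (x i.succ * stdAlt F A k fun j => x (i.succAbove j).succ))) else 0 := by
        intro i
        rw [std_cent k (fun j => x (i.succ.succAbove j)) (by intro j; simpa using h _)]
        split_ifs with hk
        · simp only [Fin.succ_succAbove_zero, Fin.succ_succAbove_succ, Fin.val_succ, pow_succ]
          rw [← mul_assoc, h i, mul_smul_comm, ← mul_assoc, ← neg_smul]
          congr 1
          ring
        · simp
      rw [Finset.sum_congr rfl fun i _ => h1 i]
      simp only [Fin.val_zero, pow_zero, one_smul, Fin.succAbove_zero]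
      by_cases hk : Even k
      · have hk' : ¬ Even (k + 1) := by simpa [Nat.even_add_one] using hk
        simp only [if_pos hk, if_neg hk']
        rw [Finset.sum_neg_distrib, ← Finset.mul_sum, ← stdAlt_succ k fun j => x j.succ]
        simp
      · have hk' : Even (k + 1) := by simpa [Nat.even_add_one] using hk
        simp [if_neg hk, if_pos hk']

lemma std_smul (u : F) (k : ℕ) (x : Fin k → A) :
    (stdAlt F A k fun j => u • x j) = u ^ k • stdAlt F A k x := by
  have := (stdAlt F A k).map_smul_univ (fun _ => u) x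
  simpa using this

variable {B : Type*} [Ring B] [Algebra F B]

lemma prod_twist (φ : A →ₐ[F] B) (z : B) (hz : ∀ y, z * φ y = φ y * z) :
    ∀ (k : ℕ) (x : Fin k → A),
      (List.ofFn fun j => φ (x j) * z).prod = φ (List.ofFn x).prod * z ^ k
  | 0, x => by simp
  | k + 1, x => by
      rw [List.ofFn_succ, List.prod_cons, List.ofFn_succ (f := x), List.prod_cons,
        prod_twist φ z hz k fun j => x j.succ, map_mul, pow_succ', mul_assoc, ← mul_assoc z, hz,
        mul_assoc, mul_assoc]

lemma std_twist (φ : A →ₐ[F] B) (z : B) (hz : ∀ y, z * φ y = φ y * z) (k : ℕ) (x : Fin k → A) :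
    (stdAlt F B k fun j => φ (x j) * z) = φ (stdAlt F A k x) * z ^ k := by
  rw [stdAlt_apply, stdAlt_apply, map_sum, Finset.sum_mul]
  refine Finset.sum_congr rfl fun σ _ => ?_
  rw [prod_twist φ z hz k fun j => x (σ j), Units.smul_def, Units.smul_def, map_zsmul,
    smul_mul_assoc]

/-- A family of `m + 1` elements closed under the `m`-bracket whose full bracket is a scalar. -/
def Good (F : Type u) [Field F] {A : Type*} [Ring A] [Algebra F A] (m : ℕ)
    (X : Fin (m + 1) → A) : Prop :=
  ∃ c d : F, c ≠ 0 ∧ d ≠ 0 ∧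
    (∀ i : Fin (m + 1), (stdAlt F A m fun j => X (i.succAbove j)) = ((-1 : F) ^ (i : ℕ) * c) • X i) ∧
    stdAlt F A (m + 1) X = d • (1 : A) ∧ ∃ i, ¬ IsIntegral F (X i * X i)

lemma step [IsAlgClosed F] [CharZero F] (φ : A →ₐ[F] B) (hφ : Function.Injective φ) (a b : B)
    (ha : a * a = 1) (hb : b * b = 1) (hab : b * a = -(a * b)) (h1 : ∀ y, a * φ y = φ y * a)
    (h2 : ∀ y, b * φ y = φ y * b) (m : ℕ) (hm : Even m) (X : Fin (m + 1) → A) (h : Good F m X) :
    ∃ Y : Fin (m + 2 + 1) → B, Good F (m + 2) Y := by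
  obtain ⟨c, d, hc, hd, e1, e2, i0, e3⟩ := h
  set z := a * b with hzd
  have hz : ∀ y, z * φ y = φ y * z := fun y => by
    rw [hzd, mul_assoc, h2, ← mul_assoc, h1, mul_assoc]
  have haz : a * z = b := by rw [hzd, ← mul_assoc, ha, one_mul]
  have hza : z * a = -b := by rw [hzd, mul_assoc, hab, mul_neg, ← mul_assoc, ha, one_mul]
  have hbz : b * z = -a := by rw [hzd, ← mul_assoc, hab, neg_mul, mul_assoc, hb, mul_one]
  have hzb : z * b = a := by rw [hzd, mul_assoc, hb, mul_one]
  have hzz : z * z = -1 := by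
    nth_rewrite 2 [hzd]
    rw [← mul_assoc, hza, neg_mul, hb]
  obtain ⟨t, rfl⟩ := hm
  set ε : F := (-1) ^ t with hε
  have hε0 : ε ≠ 0 := pow_ne_zero _ (by simp)
  have hzm : z ^ (t + t) = ε • (1 : B) := by
    rw [← two_mul, pow_mul, pow_two, hzz, hε, ← neg_one_smul F (1 : B), smul_pow, one_pow]
  have hm1 : ((t + t : ℕ) : F) + 1 ≠ 0 := by exact_mod_cast Nat.succ_ne_zero (t + t)
  have hm2 : ((t + t + 1 : ℕ) : F) + 1 ≠ 0 := by exact_mod_cast Nat.succ_ne_zero (t + t + 1)
  have hm3 : ((t + t + 1 + 1 : ℕ) : F) + 1 ≠ 0 := by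
    exact_mod_cast Nat.succ_ne_zero (t + t + 1 + 1)
  obtain ⟨u, hu⟩ := IsAlgClosed.exists_pow_nat_eq (-d / ((((t + t : ℕ) : F) + 1) * c)) (n := 2)
    two_pos
  have hu' : u * u * ((((t + t : ℕ) : F) + 1) * c) = -d := by
    rw [← pow_two, hu, div_mul_cancel₀ _ (mul_ne_zero hm1 hc)]
  have hu0 : u ≠ 0 := by
    rintro rfl
    exact hd (by simpa using hu'.symm)
  have ya : ∀ y, φ y * z * (u • a) = -(u • a * (φ y * z)) := fun y => by
    rw [mul_smul_comm, smul_mul_assoc, mul_assoc, hza, ← mul_assoc, h1, mul_assoc, haz, mul_neg,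
      smul_neg]
  have yb : ∀ y, φ y * z * (u • b) = -(u • b * (φ y * z)) := fun y => by
    rw [mul_smul_comm, smul_mul_assoc, mul_assoc, hzb, ← mul_assoc, h2, mul_assoc, hbz, mul_neg,
      smul_neg, neg_neg]
  have ba : u • b * (u • a) = -(u • a * (u • b)) := by
    simp only [smul_mul_assoc, mul_smul_comm, hab, smul_neg, hzd]
  have full : (stdAlt F B (t + t + 1) fun j => φ (X j) * z) = (d * ε) • z := by
    rw [std_twist φ z hz, e2, pow_succ, hzm, map_smul, map_one, smul_mul_assoc, smul_mul_assoc,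
      one_mul, one_mul, smul_smul]
  refine ⟨Fin.cons (u • a) (Fin.cons (u • b) fun j => φ (X j) * z),
    -((((t + t + 1 : ℕ) : F) + 1) * d * ε),
    -((((t + t + 1 + 1 : ℕ) : F) + 1) * (((t + t + 1 : ℕ) : F) + 1) * (u * u) * d * ε),
    neg_ne_zero.2 (mul_ne_zero (mul_ne_zero hm2 hd) hε0),
    neg_ne_zero.2 (mul_ne_zero (mul_ne_zero (mul_ne_zero (mul_ne_zero hm3 hm2)
      (mul_ne_zero hu0 hu0)) hd) hε0), fun i => ?_, ?_, i0.succ.succ, ?_⟩
  · refine Fin.cases ?_ (fun i => Fin.cases ?_ (fun i => ?_) i) i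
    · rw [std_anti (t + t + 1) _ (by intro j; simpa using yb _)]
      simp only [Fin.succAbove_zero, Fin.cons_succ, Fin.cons_zero, Fin.val_zero]
      rw [full, smul_mul_assoc, mul_smul_comm, hbz]
      simp only [smul_smul, smul_neg, ← neg_smul]
      congr 1
      ring
    · rw [std_anti (t + t + 1) _ (by intro j; simpa using ya _)]
      simp only [Fin.succ_succAbove_zero, Fin.succ_succAbove_succ, Fin.succAbove_zero,
        Fin.cons_succ, Fin.cons_zero, Fin.val_zero, Fin.val_succ]
      rw [full, smul_mul_assoc, mul_smul_comm, haz]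
      simp only [smul_smul]
      congr 1
      ring
    · rw [std_anti (t + t + 1) _ (by
        intro j
        refine Fin.cases ?_ (fun j => ?_) j
        · simpa using ba
        · simpa using ya _)]
      rw [std_anti (t + t) _ (by intro j; simpa using yb _)]
      simp only [Fin.succ_succAbove_zero, Fin.succ_succAbove_succ, Fin.cons_succ, Fin.cons_zero,
        Fin.val_succ]
      rw [std_twist φ z hz, e1, hzm, map_smul]
      simp only [smul_mul_assoc, mul_smul_comm, mul_one, smul_smul]
      rw [← mul_assoc a b, ← hzd, hz]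
      congr 1
      linear_combination ((((t + t + 1 : ℕ) : F) + 1) * ε * (-1) ^ (i : ℕ)) * hu'
  · rw [std_anti (t + t + 1 + 1) _ (by
      intro j
      refine Fin.cases ?_ (fun j => ?_) j
      · simpa using ba
      · simpa using ya _)]
    rw [std_anti (t + t + 1) _ (by intro j; simpa using yb _)]
    simp only [Fin.cons_succ, Fin.cons_zero]
    rw [full]
    simp only [smul_mul_assoc, mul_smul_comm, smul_smul]
    rw [← mul_assoc a b, ← hzd, hzz, smul_neg, ← neg_smul]
    congr 1
    ring
  · simp only [Fin.cons_succ]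
    rw [mul_assoc, ← mul_assoc z, hz, mul_assoc, hzz, mul_neg, mul_one, mul_neg, ← map_mul]
    intro h
    exact e3 ((isIntegral_algHom_iff φ hφ).1 (by simpa using h.neg))

lemma base_alg [CharZero F] (I : F) (hI : I * I = -1) (D M : A) (h : D * M = M * D + 1)
    (ht : ¬ IsIntegral F ((2 * (M * D) + 1) * (2 * (M * D) + 1))) :
    Good F 2 ![I • (D * D + M * M), D * D - M * M, 2 * (M * D) + 1] := by
  have hI0 : I ≠ 0 := by
    rintro rfl
    simp at hI
  have h' : ∀ y : A, D * (M * y) = M * (D * y) + y := fun y => by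
    rw [← mul_assoc, h, add_mul, one_mul, mul_assoc]
  have s2 : ∀ x : Fin 2 → A, stdAlt F A 2 x = x 0 * x 1 - x 1 * x 0 := fun x => by
    rw [stdAlt_succ, Fin.sum_univ_two]
    simp [stdAlt_apply, sub_eq_add_neg, Fin.succAbove]
  set p := D * D + M * M with hp
  set q := D * D - M * M with hq
  set r := 2 * (M * D) + 1 with hr
  have c1 : q * r - r * q = (4 : F) • p := by
    rw [show (4 : F) • p = 4 * p by rw [Algebra.smul_def, map_ofNat]]
    simp only [hp, hq, hr, two_mul, mul_add, add_mul, mul_sub, sub_mul, mul_assoc, h, h', mul_one,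
      one_mul]
    noncomm_ring
  have c2 : p * r - r * p = (4 : F) • q := by
    rw [show (4 : F) • q = 4 * q by rw [Algebra.smul_def, map_ofNat]]
    simp only [hp, hq, hr, two_mul, mul_add, add_mul, mul_sub, mul_assoc, h, h', mul_one, one_mul]
    noncomm_ring
  have c3 : p * q - q * p = (-4 : F) • r := by
    rw [neg_smul, show (4 : F) • r = r + r + r + r by module]
    simp only [hp, hq, hr, two_mul, mul_add, add_mul, mul_sub, sub_mul, mul_assoc, h, h', mul_one]
    noncomm_ring
  have c4 : q * q + r * r - p * p = (-3 : F) • (1 : A) := by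
    rw [neg_smul, show (3 : F) • (1 : A) = 1 + 1 + 1 by module]
    simp only [hp, hq, hr, two_mul, mul_add, add_mul, mul_sub, sub_mul, mul_assoc, h, h', mul_one,
      one_mul]
    noncomm_ring
  have e : ∀ i : Fin 3, (stdAlt F A 2 fun j => ![I • p, q, r] (i.succAbove j)) =
      ((-1 : F) ^ (i : ℕ) * (-4 * I)) • ![I • p, q, r] i := by
    intro i
    rw [s2]
    fin_cases i
    · show q * r - r * q = ((-1 : F) ^ 0 * (-4 * I)) • I • p
      rw [c1, smul_smul]
      congr 1
      linear_combination (4 : F) * hI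
    · show I • p * r - r * I • p = ((-1 : F) ^ 1 * (-4 * I)) • q
      rw [smul_mul_assoc, mul_smul_comm, ← smul_sub, c2, smul_smul]
      congr 1
      ring
    · show I • p * q - q * I • p = ((-1 : F) ^ 2 * (-4 * I)) • r
      rw [smul_mul_assoc, mul_smul_comm, ← smul_sub, c3, smul_smul]
      congr 1
      ring
  refine ⟨-4 * I, -4 * I * -3, mul_ne_zero (by norm_num) hI0,
    mul_ne_zero (mul_ne_zero (by norm_num) hI0) (by norm_num), e, ?_, 2, ht⟩
  rw [stdAlt_succ, Finset.sum_congr rfl fun i _ => by rw [e i], Fin.sum_univ_three,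
    mul_smul (-4 * I) (-3), ← c4]
  show (-1 : F) ^ 0 • (I • p * ((-1 : F) ^ 0 * (-4 * I)) • I • p) +
    (-1 : F) ^ 1 • (q * ((-1 : F) ^ 1 * (-4 * I)) • q) +
    (-1 : F) ^ 2 • (r * ((-1 : F) ^ 2 * (-4 * I)) • r) = _
  simp only [smul_mul_assoc, mul_smul_comm, smul_smul, smul_sub, smul_add]
  match_scalars
  · linear_combination (-4 * I) * hI
  · ring
  · ring

end Std

open Polynomial in
lemma base (F : Type u) [Field F] [IsAlgClosed F] [CharZero F] :
    ∃ X : Fin 3 → Module.End F F[X], Good F 2 X := by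
  obtain ⟨I, hI⟩ := IsAlgClosed.exists_pow_nat_eq (-1 : F) (n := 2) two_pos
  let D : Module.End F F[X] := Polynomial.derivative
  let M : Module.End F F[X] := LinearMap.mulLeft F Polynomial.X
  have h : D * M = M * D + 1 := by
    refine LinearMap.ext fun f => ?_
    simp [D, M, add_comm]
  refine ⟨_, base_alg I (by rw [← pow_two, hI]) D M h ?_⟩
  rintro ⟨p, hp, h0⟩
  have e1 : ∀ k : ℕ, (2 * (M * D) + 1 : Module.End F F[X]) (Polynomial.X ^ k) =
      (2 * (k : F) + 1) • Polynomial.X ^ k := by
    intro k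
    have : (M * D) (Polynomial.X ^ k) = (k : F) • Polynomial.X ^ k := by
      cases k with
      | zero => simp [D, M]
      | succ k =>
        simp only [D, M, Module.End.mul_apply, LinearMap.mulLeft_apply, derivative_X_pow,
          Polynomial.smul_eq_C_mul, Nat.add_sub_cancel]
        ring
    rw [two_mul, LinearMap.add_apply, LinearMap.add_apply, this, Module.End.one_apply, add_smul,
      two_mul, add_smul, one_smul]
  have e2 : ∀ k : ℕ, p.IsRoot ((2 * (k : F) + 1) * (2 * (k : F) + 1)) := by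
    intro k
    have hv : Module.End.HasEigenvector ((2 * (M * D) + 1) * (2 * (M * D) + 1))
        ((2 * (k : F) + 1) * (2 * (k : F) + 1)) (Polynomial.X ^ k : F[X]) := by
      refine ⟨?_, pow_ne_zero _ Polynomial.X_ne_zero⟩
      rw [Module.End.mem_eigenspace_iff, Module.End.mul_apply, e1, map_smul, e1, smul_smul]
    have := Module.End.aeval_apply_of_hasEigenvector (p := p) hv
    rw [Polynomial.aeval_def, h0, LinearMap.zero_apply] at this
    exact (smul_eq_zero.1 this.symm).resolve_right hv.2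
  refine hp.ne_zero (Polynomial.eq_zero_of_infinite_isRoot p ?_)
  refine Set.infinite_of_injective_forall_mem
    (f := fun k : ℕ => (2 * (k : F) + 1) * (2 * (k : F) + 1)) (fun k l hkl => ?_) e2
  have : (2 * k + 1) * (2 * k + 1) = (2 * l + 1) * (2 * l + 1) := by
    beta_reduce at hkl
    exact_mod_cast hkl
  have := Nat.mul_self_inj.1 this
  omega

lemma exists_good (F : Type u) [Field F] [IsAlgClosed F] [CharZero F] : ∀ t : ℕ,
    ∃ (A : Type u) (_ : Ring A) (_ : Algebra F A) (X : Fin (2 * t + 2 + 1) → A),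
      Good F (2 * t + 2) X
  | 0 => ⟨_, inferInstance, inferInstance, base F⟩
  | t + 1 => by
      obtain ⟨A, _, _, X, h⟩ := exists_good F t
      refine ⟨Matrix (Fin 2) (Fin 2) A, inferInstance, inferInstance,
        step (Matrix.scalarAlgHom (Fin 2) F) (fun x y e => ?_) !![0, 1; 1, 0] !![1, 0; 0, -1]
          ?_ ?_ ?_ (fun y => ?_) (fun y => ?_) (2 * t + 2) ⟨t + 1, by ring⟩ X h⟩
      · simpa using congrFun (congrFun e 0) 0
      all_goals
        ext a b
        fin_cases a <;> fin_cases b <;> simp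

theorem transcendental (F : Type u) [Field F] [IsAlgClosed F] [CharZero F] (n : ℕ) (hn : 3 ≤ n)
    (hodd : Odd n) (V : Type v) [AddCommGroup V] [Module F V]
    (e : Module.Basis (Fin (n + 1)) F V) (br : V [⋀^Fin n]→ₗ[F] V)
    (hbr : ∀ i : Fin (n + 1),
      br (fun k => e (i.succAbove k)) = (-1 : F) ^ (n + ((i : ℕ) + 1) + 1) • e i) :
    ∃ (A : Type u) (_ : Ring A) (_ : Algebra F A) (j : V →ₗ[F] A),
      (∀ v : Fin n → V, j (br v) = stdAlt F A n fun k => j (v k)) ∧
      ∃ x : V, ¬ IsIntegral F (j x * j x) := by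
  obtain ⟨m, rfl⟩ : ∃ m, n = m + 1 := ⟨n - 1, by omega⟩
  obtain ⟨t, hm⟩ : ∃ t, m = 2 * t + 2 := by
    obtain ⟨s, hs⟩ := hodd
    exact ⟨s - 1, by omega⟩
  obtain ⟨A, _, _, X, c, d, hc, hd, e1, e2, i0, e3⟩ : ∃ (A : Type u) (_ : Ring A)
      (_ : Algebra F A) (X : Fin (m + 1) → A), Good F m X := hm ▸ exists_good F t
  have hev : Even m := ⟨t + 1, by omega⟩
  obtain ⟨u, hu⟩ := IsAlgClosed.exists_pow_nat_eq (-(d * c)⁻¹) (n := 2 * m) (by omega)
  have hu' : d * c * u ^ (2 * m) = -1 := by
    rw [hu]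
    field_simp
  have hu0 : u ≠ 0 := by
    rintro rfl
    rw [zero_pow (by omega)] at hu'
    simp at hu'
  let Y : Fin (m + 2) → A := Fin.cons ((-(u ^ (m + 1) * d)) • 1) fun j => u • X j
  have hrel : ∀ i : Fin (m + 2), stdAlt F A (m + 1) (fun k => Y (i.succAbove k)) =
      (-1 : F) ^ (m + 1 + ((i : ℕ) + 1) + 1) • Y i := by
    intro i
    refine Fin.cases ?_ (fun i => ?_) i
    · simp only [Y, Fin.succAbove_zero, Fin.cons_succ, Fin.cons_zero, Fin.val_zero]
      rw [std_smul, e2, smul_smul, smul_smul]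
      congr 1
      simp [pow_succ, hev.neg_one_pow]
    · rw [std_cent m _ (by intro j; simp [Y, smul_smul, mul_comm]), if_pos hev]
      simp only [Y, Fin.succ_succAbove_zero, Fin.succ_succAbove_succ, Fin.cons_zero,
        Fin.cons_succ, Fin.val_succ]
      rw [std_smul, e1]
      simp only [smul_mul_assoc, one_mul, smul_smul]
      congr 1
      have h7 : (-1 : F) ^ (m + 1 + ((i : ℕ) + 1 + 1) + 1) = (-1) ^ (i : ℕ) := by
        have : m + 1 + ((i : ℕ) + 1 + 1) + 1 = m + (i : ℕ) + 4 := by ring
        rw [this, pow_add, pow_add, hev.neg_one_pow]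
        norm_num
      rw [h7]
      linear_combination (-((-1 : F) ^ (i : ℕ)) * u) * hu'
  let j₀ : V →ₗ[F] A := e.constr F Y
  have hj₀e : ∀ i, j₀ (e i) = Y i := fun i => by simp [j₀]
  have key : j₀.compAlternatingMap br = (stdAlt F A (m + 1)).compLinearMap j₀ := by
    refine Module.Basis.ext_alternating e fun w hw => ?_
    obtain ⟨i, τ, hτ⟩ := exists_perm_succAbove w hw
    have hw' : (fun k => e (w k)) = (fun k => e (i.succAbove k)) ∘ τ := by
      ext k
      simp [hτ]
    rw [hw', AlternatingMap.map_perm, AlternatingMap.map_perm]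
    congr 1
    simp only [LinearMap.compAlternatingMap_apply, AlternatingMap.compLinearMap_apply, hbr,
      map_smul, hj₀e]
    exact (hrel i).symm
  refine ⟨A, inferInstance, inferInstance, j₀, fun v => ?_, u⁻¹ • e i0.succ, ?_⟩
  · simpa using congrArg (fun s => s v) key
  · rw [map_smul, hj₀e]
    simpa [Y, smul_smul, hu0] using e3

end Pool.Agent.Work.MP_2df8e9_al.Env
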